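import Pool.Agent.Y979.HM.Final

/-!
# Harmonic measure at infinity of the hyperbolic Poisson-Voronoi graph is singular

The hyperbolic plane is the upper half plane `ℍ`. For a homogeneous Poisson process `Q` of any
intensity `lam > 0`, almost surely the dual graph of the Voronoi tessellation is infinite,
connected and locally finite, and for every starting vertex the harmonic measure at infinity of
the simple random walk on it (the distribution of the limit of the walk on the unit circle, in the
disc model) is singular with respect to arc length.
-/

set_option autoImplicit false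

open MeasureTheory UpperHalfPlane Filter Pool.Agent.Y979.HV Pool.Agent.Y979.HM
open scoped ENNReal Topology

universe u

namespace Pool.Agent.Results.MP_23af14_pr.HarmonicMeasureSingular

theorem result {Ω : Type u} [MeasurableSpace Ω] (P : Measure Ω) [IsProbabilityMeasure P]
    (lam : ℝ) (hlam : 0 < lam) (Q : Ω → Set ℍ) (hQ : IsPoissonProcess P lam Q) :
    ∀ᵐ ω ∂P, (Q ω).Infinite ∧ (voronoiGraph (Q ω)).Connected ∧ LF (voronoiGraph (Q ω)) ∧
      ∀ (x : Q ω) {Ω' : Type} [MeasurableSpace Ω'] (P' : Measure Ω') [IsProbabilityMeasure P']
        (X : ℕ → Ω' → Q ω), IsSRW P' (voronoiGraph (Q ω)) x X →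
        ∃ ν : Measure ℂ, IsHarmonicMeasure P' X ν ∧ ν ⟂ₘ arcLength :=
  final P lam hlam Q hQ

end Pool.Agent.Results.MP_23af14_pr.HarmonicMeasureSingular
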